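import Mathlib

/-!
# Locally finite products of a `p`-group and a `q`-group with abelian or finite chief factors

If `G = AB` is locally finite, `A` a `p`-group, `B` a `q`-group, and every chief factor of `G` is
abelian or finite (for instance if `G` is locally soluble), then `G` is a `{p,q}`-group.
-/

set_option autoImplicit false

namespace Pool.Agent.Results.MP_5e147a_al.ChiefFactors

/-- `G` is a locally finite group. -/
def LocFin (G : Type*) [Group G] : Prop := ∀ S : Finset G, Finite (Subgroup.closure (S : Set G))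

/-- `G` is locally soluble. -/
def LocSol (G : Type*) [Group G] : Prop :=
  ∀ S : Finset G, Group.IsSolvable (Subgroup.closure (S : Set G))

/-- every element of `G` has order `p^a q^b`. -/
def IsPQ (p q : ℕ) (G : Type*) [Group G] : Prop :=
  ∀ g : G, ∃ a b : ℕ, orderOf g = p ^ a * q ^ b

/-- `N / M` is a chief factor of `G`: `M < N` are normal and there is no normal subgroup strictly
between them. -/
def IsChief {G : Type*} [Group G] (M N : Subgroup G) : Prop :=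
  M.Normal ∧ N.Normal ∧ M < N ∧ ∀ K : Subgroup G, K.Normal → M ≤ K → K ≤ N → K = M ∨ K = N

/-- the chief factor `N / M` is abelian -/
def AbFactor {G : Type*} [Group G] (M N : Subgroup G) : Prop :=
  ∀ x ∈ N, ∀ y ∈ N, x * y * x⁻¹ * y⁻¹ ∈ M

/-- the chief factor `N / M` is finite -/
def FinFactor {G : Type*} [Group G] (M N : Subgroup G) : Prop :=
  (M.subgroupOf N).FiniteIndex


/-! ### jN -/

/-- every normal subgroup is factorised -/
theorem normal_fact {G : Type*} [Group G] (p q : ℕ) (hp : p.Prime) (hq : q.Prime) (hpq : p ≠ q)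
    (A B : Subgroup G) (hA : IsPGroup p A) (hB : IsPGroup q B)
    (hAB : ∀ g : G, ∃ a ∈ A, ∃ b ∈ B, g = a * b) (N : Subgroup G) [N.Normal] (x : G) (hx : x ∈ N) :
    ∃ a ∈ A, ∃ b ∈ B, a ∈ N ∧ b ∈ N ∧ x = a * b := by
  obtain ⟨a, ha, b, hb, hxab⟩ := hAB x
  obtain ⟨i, hi⟩ := hA ⟨a, ha⟩
  obtain ⟨j, hj⟩ := hB ⟨b, hb⟩
  have hi' : a ^ p ^ i = 1 := congrArg Subtype.val hi
  have hj' : b ^ q ^ j = 1 := congrArg Subtype.val hj
  have h1 : (QuotientGroup.mk' N a) * (QuotientGroup.mk' N b) = 1 := by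
    rw [← map_mul, ← hxab]
    exact (QuotientGroup.eq_one_iff x).2 hx
  have h2 : QuotientGroup.mk' N a = (QuotientGroup.mk' N b)⁻¹ := eq_inv_of_mul_eq_one_left h1
  have h3 : orderOf (QuotientGroup.mk' N a) ∣ p ^ i := by
    apply orderOf_dvd_of_pow_eq_one
    rw [← map_pow, hi', map_one]
  have h4 : orderOf (QuotientGroup.mk' N a) ∣ q ^ j := by
    apply orderOf_dvd_of_pow_eq_one
    rw [h2, inv_pow, ← map_pow, hj', map_one, inv_one]
  have hcop : Nat.Coprime (p ^ i) (q ^ j) :=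
    Nat.Coprime.pow i j ((Nat.coprime_primes hp hq).2 hpq)
  have h5 : orderOf (QuotientGroup.mk' N a) = 1 := Nat.eq_one_of_dvd_coprimes hcop h3 h4
  have h6 : QuotientGroup.mk' N a = 1 := orderOf_eq_one_iff.1 h5
  have haN : a ∈ N := (QuotientGroup.eq_one_iff a).1 h6
  refine ⟨a, ha, b, hb, haN, ?_, hxab⟩
  have h7 : b = a⁻¹ * x := by rw [hxab]; group
  rw [h7]
  exact N.mul_mem (N.inv_mem haN) hx

/-- the prime-order reduction: if not all orders are of the form `p^a q^b` then in a locally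
finite group there is an element of prime order `r ≠ p, q` -/
theorem exists_prime_elt {G : Type*} [Group G] (hfin : LocFin G) (p q : ℕ) (hp : p.Prime)
    (hq : q.Prime) (h : ¬ IsPQ p q G) :
    ∃ (r : ℕ) (g : G), r.Prime ∧ r ≠ p ∧ r ≠ q ∧ orderOf g = r := by
  unfold IsPQ at h
  push Not at h
  obtain ⟨g, hg⟩ := h
  have hpos : 0 < orderOf g := by
    have h1 := hfin {g}
    have h2 : g ∈ Subgroup.closure ((({g} : Finset G)) : Set G) :=
      Subgroup.subset_closure (by simp)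
    have h3 : IsOfFinOrder (⟨g, h2⟩ : Subgroup.closure ((({g} : Finset G)) : Set G)) :=
      isOfFinOrder_of_finite _
    have h4 : orderOf (⟨g, h2⟩ : Subgroup.closure ((({g} : Finset G)) : Set G)) = orderOf g :=
      Subgroup.orderOf_mk g h2
    rw [← h4]
    exact h3.orderOf_pos
  obtain ⟨n, hn⟩ : ∃ n, n = orderOf g := ⟨_, rfl⟩
  rw [← hn] at hpos
  have hn0 : n ≠ 0 := hpos.ne'
  obtain ⟨a, m, hm, hnm⟩ := Nat.exists_eq_pow_mul_and_not_dvd hn0 p hp.ne_one
  have hm0 : m ≠ 0 := by rintro rfl; exact hm (dvd_zero p)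
  obtain ⟨b, t, ht, hmt⟩ := Nat.exists_eq_pow_mul_and_not_dvd hm0 q hq.ne_one
  have ht1 : t ≠ 1 := by
    rintro rfl
    apply hg a b
    rw [← hn, hnm, hmt, mul_one]
  obtain ⟨r, hr, hrt⟩ := Nat.exists_prime_and_dvd ht1
  have hrn : r ∣ n := by
    rw [hnm, hmt]
    exact Dvd.dvd.mul_left (Dvd.dvd.mul_left hrt _) _
  refine ⟨r, g ^ (n / r), hr, ?_, ?_, ?_⟩
  · rintro rfl
    apply hm
    rw [hmt]
    exact Dvd.dvd.mul_left hrt _
  · rintro rfl
    exact ht hrt
  · rw [orderOf_pow_of_dvd, ← hn, Nat.div_div_self hrn hn0]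
    · exact (Nat.div_pos (Nat.le_of_dvd hpos hrn) hr.pos).ne'
    · rw [← hn]
      exact Nat.div_dvd_of_dvd hrn

/-! ### jE -/

/-- below a normal closure there is a chief factor -/
theorem exists_chief {G : Type*} [Group G] (P : Subgroup G) [P.Normal] (g : G) (hg : g ∉ P) :
    ∃ M N : Subgroup G, P ≤ M ∧ IsChief M N ∧ g ∈ N ∧ g ∉ M := by
  set N : Subgroup G := P ⊔ Subgroup.normalClosure {g} with hN
  have hNn : N.Normal := Subgroup.sup_normal _ _
  have hgN : g ∈ N := Subgroup.mem_sup_right (Subgroup.subset_normalClosure (Set.mem_singleton g))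
  have hz := zorn_le_nonempty₀ {M : Subgroup G | M.Normal ∧ P ≤ M ∧ M ≤ N ∧ g ∉ M} (by
    intro c hc hch y hy
    refine ⟨sSup c, ⟨?_, ?_, ?_, ?_⟩, fun z hz => le_sSup hz⟩
    · refine ⟨fun n hn x => ?_⟩
      rw [Subgroup.mem_sSup_of_directedOn ⟨y, hy⟩ hch.directedOn] at hn ⊢
      obtain ⟨M, hM, hnM⟩ := hn
      exact ⟨M, hM, (hc hM).1.conj_mem n hnM x⟩
    · exact (hc hy).2.1.trans (le_sSup hy)
    · exact sSup_le fun M hM => (hc hM).2.2.1
    · intro hg'
      rw [Subgroup.mem_sSup_of_directedOn ⟨y, hy⟩ hch.directedOn] at hg'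
      obtain ⟨M, hM, hnM⟩ := hg'
      exact (hc hM).2.2.2 hnM) P ⟨inferInstance, le_refl P, le_sup_left, hg⟩
  obtain ⟨M, hPM, hM⟩ := hz
  obtain ⟨⟨hMn, hPM', hMN, hgM⟩, hmax⟩ := hM
  refine ⟨M, N, hPM, ⟨hMn, hNn, ?_, ?_⟩, hgN, hgM⟩
  · refine lt_of_le_of_ne hMN ?_
    rintro rfl
    exact hgM hgN
  · intro K hK hMK hKN
    by_cases hgK : g ∈ K
    · right
      apply le_antisymm hKN
      refine sup_le (hPM.trans hMK) ?_
      exact Subgroup.normalClosure_le_normal (by simpa using hgK)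
    · left
      exact le_antisymm (hmax ⟨hK, hPM.trans hMK, hKN, hgK⟩ hMK) hMK

/-! ### jA -/

/-- an abelian chief factor containing the image of an element of prime order `r ≠ p, q` is
impossible -/
theorem no_abelian {G : Type*} [Group G] (p q : ℕ) (hp : p.Prime) (hq : q.Prime) (hpq : p ≠ q)
    (A B : Subgroup G) (hA : IsPGroup p A) (hB : IsPGroup q B)
    (hAB : ∀ g : G, ∃ a ∈ A, ∃ b ∈ B, g = a * b) (M N : Subgroup G) (hc : IsChief M N)
    (hab : AbFactor M N) (r : ℕ) (hr : r.Prime) (hrp : r ≠ p) (hrq : r ≠ q) (g : G)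
    (hgr : g ^ r = 1) (hgN : g ∈ N) : g ∈ M := by
  obtain ⟨hMn, hNn, hMN, hmin⟩ := hc
  have hcomm : ∀ x ∈ N, ∀ y ∈ N, Commute (x : G ⧸ M) (y : G ⧸ M) := by
    intro x hx y hy
    have h1 := hab x hx y hy
    have h2 : ((x * y * x⁻¹ * y⁻¹ : G) : G ⧸ M) = 1 := (QuotientGroup.eq_one_iff _).2 h1
    have h3 : (x : G ⧸ M) * y * (x : G ⧸ M)⁻¹ * (y : G ⧸ M)⁻¹ = 1 := by simpa using h2
    show (x : G ⧸ M) * y = y * x
    rw [mul_inv_eq_one, mul_inv_eq_iff_eq_mul] at h3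
    exact h3
  let R : Subgroup G :=
    { carrier := {x | x ∈ N ∧ x ^ r ∈ M}
      mul_mem' := by
        rintro x y ⟨hx, hx'⟩ ⟨hy, hy'⟩
        refine ⟨N.mul_mem hx hy, ?_⟩
        rw [← QuotientGroup.eq_one_iff] at hx' hy' ⊢
        rw [QuotientGroup.mk_pow] at hx' hy' ⊢
        rw [QuotientGroup.mk_mul, (hcomm x hx y hy).mul_pow, hx', hy', one_mul]
      one_mem' := ⟨N.one_mem, by rw [one_pow]; exact M.one_mem⟩
      inv_mem' := by
        rintro x ⟨hx, hx'⟩
        refine ⟨N.inv_mem hx, ?_⟩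
        rw [inv_pow]; exact M.inv_mem hx' }
  have hRn : R.Normal := by
    refine ⟨?_⟩
    rintro x ⟨hx, hx'⟩ g
    refine ⟨hNn.conj_mem x hx g, ?_⟩
    rw [conj_pow]
    exact hMn.conj_mem _ hx' g
  have hMR : M ≤ R := fun x hx => ⟨hMN.le hx, M.pow_mem hx r⟩
  have hRN : R ≤ N := fun x hx => hx.1
  have hgR : g ∈ R := ⟨hgN, by rw [hgr]; exact M.one_mem⟩
  rcases hmin R hRn hMR hRN with h | h
  · rw [← h]; exact hgR
  · have key : ∀ (s : ℕ), s.Prime → r ≠ s → ∀ x ∈ N, (∃ k : ℕ, x ^ s ^ k = 1) → x ∈ M := by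
      intro s hs hrs x hx ⟨k, hk⟩
      have hxR : x ∈ R := by rw [h]; exact hx
      have h1 : (x : G ⧸ M) ^ r = 1 := by
        rw [← QuotientGroup.mk_pow]; exact (QuotientGroup.eq_one_iff _).2 hxR.2
      have h2 : (x : G ⧸ M) ^ s ^ k = 1 := by
        rw [← QuotientGroup.mk_pow, hk]; rfl
      have h3 := orderOf_dvd_of_pow_eq_one h1
      have h4 := orderOf_dvd_of_pow_eq_one h2
      have h5 : Nat.Coprime r (s ^ k) := Nat.Coprime.pow_right k ((Nat.coprime_primes hr hs).2 hrs)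
      have h6 : orderOf (x : G ⧸ M) ∣ 1 := by
        have := Nat.dvd_gcd h3 h4
        rwa [h5] at this
      have h7 : orderOf (x : G ⧸ M) = 1 := Nat.dvd_one.1 h6
      exact (QuotientGroup.eq_one_iff _).1 (orderOf_eq_one_iff.1 h7)
    haveI := hNn
    obtain ⟨a, ha, b, hb, haN, hbN, rfl⟩ := normal_fact p q hp hq hpq A B hA hB hAB N g hgN
    refine M.mul_mem (key p hp hrp a haN ?_) (key q hq hrq b hbN ?_)
    · obtain ⟨k, hk⟩ := hA ⟨a, ha⟩
      exact ⟨k, by simpa using congrArg Subtype.val hk⟩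
    · obtain ⟨k, hk⟩ := hB ⟨b, hb⟩
      exact ⟨k, by simpa using congrArg Subtype.val hk⟩

/-! ### jF -/

/-- the same for a finite chief factor -/
theorem no_finite {G : Type*} [Group G] (p q : ℕ) (hp : p.Prime) (hq : q.Prime) (hpq : p ≠ q)
    (A B : Subgroup G) (hA : IsPGroup p A) (hB : IsPGroup q B)
    (hAB : ∀ g : G, ∃ a ∈ A, ∃ b ∈ B, g = a * b) (M N : Subgroup G) (hc : IsChief M N)
    (hf : FinFactor M N) (r : ℕ) (hr : r.Prime) (hrp : r ≠ p) (hrq : r ≠ q) (g : G)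
    (hgr : g ^ r = 1) (hgN : g ∈ N) : g ∈ M := by
  haveI := hc.1
  haveI := hc.2.1
  haveI hfi : (M.subgroupOf N).FiniteIndex := hf
  haveI : Fact p.Prime := ⟨hp⟩
  haveI : Fact q.Prime := ⟨hq⟩
  let φ : N →* N ⧸ M.subgroupOf N := QuotientGroup.mk' (M.subgroupOf N)
  haveI hfin : Finite (N ⧸ M.subgroupOf N) := Subgroup.finite_quotient_of_finiteIndex
  let A1 : Subgroup (N ⧸ M.subgroupOf N) := (A.subgroupOf N).map φ
  let B1 : Subgroup (N ⧸ M.subgroupOf N) := (B.subgroupOf N).map φ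
  have hA1 : IsPGroup p A1 := (hA.comap_of_injective N.subtype N.subtype_injective).map φ
  have hB1 : IsPGroup q B1 := (hB.comap_of_injective N.subtype N.subtype_injective).map φ
  obtain ⟨i, hi⟩ := IsPGroup.iff_card.mp hA1
  obtain ⟨j, hj⟩ := IsPGroup.iff_card.mp hB1
  have hfac : ∀ x : N ⧸ M.subgroupOf N, ∃ b ∈ B1, ∃ a ∈ A1, x = b * a := by
    intro x
    obtain ⟨y, hy⟩ := QuotientGroup.mk'_surjective (M.subgroupOf N) x⁻¹
    obtain ⟨a, ha, b, hb, haN, hbN, hab⟩ := normal_fact p q hp hq hpq A B hA hB hAB N y.1 y.2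
    have h1 : y = ⟨a, haN⟩ * ⟨b, hbN⟩ := Subtype.ext hab
    have ha1 : φ ⟨a, haN⟩ ∈ A1 := ⟨⟨a, haN⟩, ha, rfl⟩
    have hb1 : φ ⟨b, hbN⟩ ∈ B1 := ⟨⟨b, hbN⟩, hb, rfl⟩
    refine ⟨(φ ⟨b, hbN⟩)⁻¹, B1.inv_mem hb1, (φ ⟨a, haN⟩)⁻¹, A1.inv_mem ha1, ?_⟩
    rw [← mul_inv_rev, ← map_mul, ← h1]
    have h2 : φ y = x⁻¹ := hy
    rw [h2, inv_inv]
  have htrans : MulAction.IsPretransitive B1 ((N ⧸ M.subgroupOf N) ⧸ A1) := by
    rw [MulAction.isPretransitive_iff_base (QuotientGroup.mk 1 : (N ⧸ M.subgroupOf N) ⧸ A1)]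
    intro y
    obtain ⟨x, rfl⟩ := QuotientGroup.mk_surjective y
    obtain ⟨b, hb, a, ha, rfl⟩ := hfac x
    refine ⟨⟨b, hb⟩, ?_⟩
    show (QuotientGroup.mk (b * 1) : (N ⧸ M.subgroupOf N) ⧸ A1) = QuotientGroup.mk (b * a)
    rw [QuotientGroup.eq]
    simpa using ha
  have h1 : Nat.card ((N ⧸ M.subgroupOf N) ⧸ A1) ∣ Nat.card B1 := by
    rw [← MulAction.index_stabilizer_of_transitive B1 (QuotientGroup.mk 1 : (N ⧸ M.subgroupOf N) ⧸ A1)]
    exact Subgroup.index_dvd_card _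
  have h2 : Nat.card (N ⧸ M.subgroupOf N) ∣ q ^ j * p ^ i := by
    rw [Subgroup.card_eq_card_quotient_mul_card_subgroup A1, hi, ← hj]
    exact Nat.mul_dvd_mul_right h1 _
  have h3 : ¬ r ∣ Nat.card (N ⧸ M.subgroupOf N) := by
    intro h
    have h4 := h.trans h2
    rcases (Nat.Prime.dvd_mul hr).mp h4 with h5 | h5
    · exact hrq ((Nat.prime_dvd_prime_iff_eq hr hq).mp (hr.dvd_of_dvd_pow h5))
    · exact hrp ((Nat.prime_dvd_prime_iff_eq hr hp).mp (hr.dvd_of_dvd_pow h5))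
  have h4 : (φ ⟨g, hgN⟩) ^ r = 1 := by
    rw [← map_pow]
    have : (⟨g, hgN⟩ : N) ^ r = 1 := Subtype.ext hgr
    rw [this, map_one]
  have h5 : orderOf (φ ⟨g, hgN⟩) ∣ r := orderOf_dvd_of_pow_eq_one h4
  have h6 : orderOf (φ ⟨g, hgN⟩) ∣ Nat.card (N ⧸ M.subgroupOf N) := orderOf_dvd_natCard _
  have h7 : φ ⟨g, hgN⟩ = 1 := by
    rcases (Nat.dvd_prime hr).mp h5 with h | h
    · exact orderOf_eq_one_iff.mp h
    · rw [h] at h6
      exact absurd h6 h3
  have h8 : (⟨g, hgN⟩ : N) ∈ M.subgroupOf N := (QuotientGroup.eq_one_iff _).mp h7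
  exact h8

/-! ### jM -/

/-- chief factors of locally soluble groups are abelian (McLain) -/
theorem chief_locsol {G : Type*} [Group G] (hG : LocSol G) (M N : Subgroup G) (hc : IsChief M N) :
    AbFactor M N := by
  classical
  obtain ⟨hM, hN, hlt, hch⟩ := hc
  intro x hx y hy
  by_contra hcM
  obtain ⟨c, hcdef⟩ : ∃ c, c = x * y * x⁻¹ * y⁻¹ := ⟨_, rfl⟩
  rw [← hcdef] at hcM
  have hcN : c ∈ N := by
    rw [hcdef]
    exact N.mul_mem (N.mul_mem (N.mul_mem hx hy) (N.inv_mem hx)) (N.inv_mem hy)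
  have hL : M ⊔ Subgroup.normalClosure {c} = N := by
    rcases hch (M ⊔ Subgroup.normalClosure {c}) inferInstance le_sup_left
      (sup_le hlt.le (Subgroup.normalClosure_le_normal (by simpa using hcN))) with h | h
    · exfalso
      apply hcM
      rw [← h]
      exact Subgroup.mem_sup_right (Subgroup.subset_normalClosure rfl)
    · exact h
  let π : G →* G ⧸ M := QuotientGroup.mk' M
  let Kb : Subgroup G → Subgroup (G ⧸ M) := fun H =>
    Subgroup.closure {z | ∃ h ∈ H, z = π h * π c * (π h)⁻¹}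
  have hKmono : ∀ H H', H ≤ H' → Kb H ≤ Kb H' := fun H H' h =>
    Subgroup.closure_mono (by rintro z ⟨g, hg, rfl⟩; exact ⟨g, h hg, rfl⟩)
  let T : Subgroup G :=
    { carrier := {z | ∃ S : Finset G, π z ∈ Kb (Subgroup.closure (S : Set G))}
      mul_mem' := by
        rintro a b ⟨S, hS⟩ ⟨S', hS'⟩
        refine ⟨S ∪ S', ?_⟩
        rw [map_mul]
        exact mul_mem (hKmono _ _ (Subgroup.closure_mono (by simp)) hS)
          (hKmono _ _ (Subgroup.closure_mono (by simp)) hS')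
      one_mem' := ⟨∅, by rw [map_one]; exact one_mem _⟩
      inv_mem' := by
        rintro a ⟨S, hS⟩
        exact ⟨S, by rw [map_inv]; exact inv_mem hS⟩ }
  have hMT : M ≤ T := fun m hm => ⟨∅, by
    have : π m = 1 := (QuotientGroup.eq_one_iff m).2 hm
    rw [this]
    exact one_mem _⟩
  have hcT : Subgroup.normalClosure {c} ≤ T := by
    rw [Subgroup.normalClosure, Subgroup.closure_le]
    intro z hz
    rw [Group.mem_conjugatesOfSet_iff] at hz
    obtain ⟨a, ha, hconj⟩ := hz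
    rw [Set.mem_singleton_iff] at ha
    subst ha
    obtain ⟨g, hg⟩ := isConj_iff.1 hconj
    refine ⟨{g}, Subgroup.subset_closure ⟨g, Subgroup.subset_closure (by simp), ?_⟩⟩
    rw [← hg, map_mul, map_mul, map_inv]
  have hNT : N ≤ T := by rw [← hL]; exact sup_le hMT hcT
  obtain ⟨S1, hS1⟩ := hNT hx
  obtain ⟨S2, hS2⟩ := hNT hy
  obtain ⟨S, hS⟩ : ∃ S : Finset G, S = S1 ∪ S2 ∪ {x, y} := ⟨_, rfl⟩
  have hsol := hG S
  obtain ⟨H, hH⟩ : ∃ H : Subgroup G, H = Subgroup.closure (S : Set G) := ⟨_, rfl⟩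
  rw [← hH] at hsol
  have hxH : x ∈ H := by rw [hH]; exact Subgroup.subset_closure (by simp [hS])
  have hyH : y ∈ H := by rw [hH]; exact Subgroup.subset_closure (by simp [hS])
  have hx' : π x ∈ Kb H := hKmono _ _ (by
    rw [hH]
    apply Subgroup.closure_mono
    intro z hz
    rw [hS]
    simp only [Finset.coe_union, Set.mem_union]
    exact Or.inl (Or.inl hz)) hS1
  have hy' : π y ∈ Kb H := hKmono _ _ (by
    rw [hH]
    apply Subgroup.closure_mono
    intro z hz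
    rw [hS]
    simp only [Finset.coe_union, Set.mem_union]
    exact Or.inl (Or.inr hz)) hS2
  have hcH : c ∈ H := by
    rw [hcdef]
    exact H.mul_mem (H.mul_mem (H.mul_mem hxH hyH) (H.inv_mem hxH)) (H.inv_mem hyH)
  let φ : H →* G ⧸ M := π.comp H.subtype
  have hstep : ∀ n, π c ∈ (derivedSeries H n).map φ → Kb H ≤ (derivedSeries H n).map φ := by
    rintro n ⟨d, hd, hdc⟩
    rw [Subgroup.closure_le]
    rintro z ⟨h, hh, rfl⟩
    refine ⟨⟨h, hh⟩ * d * ⟨h, hh⟩⁻¹, (derivedSeries_normal H n).conj_mem d hd _, ?_⟩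
    rw [map_mul, map_mul, map_inv, hdc]
    rfl
  have hind : ∀ n, Kb H ≤ (derivedSeries H n).map φ := by
    intro n
    induction n with
    | zero =>
      apply hstep
      exact ⟨⟨c, hcH⟩, by simp, rfl⟩
    | succ n ih =>
      apply hstep
      rw [derivedSeries_succ, Subgroup.map_commutator]
      have h1 := Subgroup.commutator_mem_commutator (ih hx') (ih hy')
      rw [commutatorElement_def] at h1
      have h2 : π c = π x * π y * (π x)⁻¹ * (π y)⁻¹ := by
        rw [hcdef]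
        simp only [map_mul, map_inv]
      rw [h2]
      exact h1
  obtain ⟨n, hn⟩ := hsol.solvable
  have hfin := hind n (Subgroup.subset_closure ⟨1, H.one_mem, rfl⟩)
  rw [hn, Subgroup.map_bot, Subgroup.mem_bot, map_one, one_mul, inv_one, mul_one] at hfin
  exact hcM ((QuotientGroup.eq_one_iff c).1 hfin)

/-! ### jC -/

theorem chief_case {G : Type*} [Group G] (hfin : LocFin G) (p q : ℕ) (hp : p.Prime) (hq : q.Prime)
    (hpq : p ≠ q) (A B : Subgroup G) (hA : IsPGroup p A) (hB : IsPGroup q B)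
    (hAB : ∀ g : G, ∃ a ∈ A, ∃ b ∈ B, g = a * b)
    (hch : ∀ M N : Subgroup G, IsChief M N → AbFactor M N ∨ FinFactor M N) : IsPQ p q G := by
  by_contra h
  obtain ⟨r, g, hr, hrp, hrq, hg⟩ := exists_prime_elt hfin p q hp hq h
  have hg1 : g ∉ (⊥ : Subgroup G) := by
    rw [Subgroup.mem_bot]
    intro h1
    rw [h1, orderOf_one] at hg
    exact hr.one_lt.ne hg
  obtain ⟨M, N, _, hc, hgN, hgM⟩ := exists_chief (⊥ : Subgroup G) g hg1
  have hgr : g ^ r = 1 := by rw [← hg]; exact pow_orderOf_eq_one g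
  rcases hch M N hc with hab | hf
  · exact hgM (no_abelian p q hp hq hpq A B hA hB hAB M N hc hab r hr hrp hrq g hgr hgN)
  · exact hgM (no_finite p q hp hq hpq A B hA hB hAB M N hc hf r hr hrp hrq g hgr hgN)

theorem locsol_case {G : Type*} [Group G] (hfin : LocFin G) (hsol : LocSol G) (p q : ℕ)
    (hp : p.Prime) (hq : q.Prime)
    (hpq : p ≠ q) (A B : Subgroup G) (hA : IsPGroup p A) (hB : IsPGroup q B)
    (hAB : ∀ g : G, ∃ a ∈ A, ∃ b ∈ B, g = a * b) : IsPQ p q G := 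
  chief_case hfin p q hp hq hpq A B hA hB hAB (fun M N hc => Or.inl (chief_locsol hsol M N hc))

/-- Main result.  Let `G = AB` be a locally finite group, `A` a `p`-subgroup and `B` a
`q`-subgroup, `p ≠ q` primes.
(1) Every normal subgroup `N` of `G` satisfies `N = (N ∩ A)(N ∩ B)`.
(2) If every chief factor of `G` is abelian or finite, then `G` is a `{p,q}`-group.
(3) If `G` is locally soluble, then `G` is a `{p,q}`-group. -/
theorem result (G : Type*) [Group G] (p q : ℕ) (hp : p.Prime) (hq : q.Prime) (hpq : p ≠ q)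
    (hfin : LocFin G) (A B : Subgroup G) (hA : IsPGroup p A) (hB : IsPGroup q B)
    (hAB : ∀ g : G, ∃ a ∈ A, ∃ b ∈ B, g = a * b) :
    (∀ N : Subgroup G, N.Normal → ∀ x ∈ N, ∃ a ∈ A, ∃ b ∈ B, a ∈ N ∧ b ∈ N ∧ x = a * b) ∧
    ((∀ M N : Subgroup G, IsChief M N → AbFactor M N ∨ FinFactor M N) → IsPQ p q G) ∧
    (LocSol G → IsPQ p q G) := by
  refine ⟨fun N hN x hx => ?_, fun h => ?_, fun h => ?_⟩
  · exact normal_fact p q hp hq hpq A B hA hB hAB N x hx
  · exact chief_case hfin p q hp hq hpq A B hA hB hAB h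
  · exact locsol_case hfin h p q hp hq hpq A B hA hB hAB

end Pool.Agent.Results.MP_5e147a_al.ChiefFactors
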